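import Pool.Agent.R544.CM.Red

/-!
# `COL-2PM` is NP-complete

Reduction from 3SAT.  For every variable `x` there is a cycle of edges of colour `1` through the
vertices `z(x, o, 0), …, z(x, o, 3)`, for all occurrences `o` of literals; the first matching
contains every second edge of it, and the parity is the value of `x`.  Every vertex of these cycles
has a private partner for the second matching; the private partners are matched to each other in the
first matching.  For a clause there are two vertices `c`, `c'` which are matched to each other in
the first matching; in the second matching `c` has to take the private partner of one end of an edge
of the cycle of an occurrence `o` of a literal of the clause, hence this edge belongs to the second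
matching, and so the literal is true, and `c'` takes the private partner of the other end.
-/

namespace Pool.Agent.Results.MP_439cda_lc.Col2PMNPComplete

open Pool.Agent.NPC Pool.Agent.R544.CM

/-- `COL-2PM` (does a bipartite graph whose edges have colours `1`, `2` have two edge-disjoint
perfect matchings, the first one with edges of colour `1` only?) is `NP`-complete. -/
theorem result : InNPP COL2PM ∧ NPHardP COL2PM :=
  ⟨inNPP, HardI.toNPHardP hardPr_CM.toHardI⟩

end Pool.Agent.Results.MP_439cda_lc.Col2PMNPComplete
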